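import Mathlib

/-!
# Non-commutative crepant resolutions and the Grothendieck group of modules of finite length
-/

namespace Pool.Agent.H85.NC

open CategoryTheory

/-- `N` is maximal Cohen-Macaulay over `R`: for every prime `p`, the localisation `N_p` is zero or
has a regular sequence of length `dim R_p` in the maximal ideal. -/
def IsMCM (R : Type) [CommRing R] (N : Type) [AddCommGroup N] [Module R N] : Prop :=
  ∀ (p : Ideal R) [p.IsPrime], Subsingleton (LocalizedModule p.primeCompl N) ∨
    ∃ rs : List (Localization.AtPrime p),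
      (∀ x ∈ rs, x ∈ IsLocalRing.maximalIdeal (Localization.AtPrime p)) ∧
      (rs.length : WithBot ℕ∞) = ringKrullDim (Localization.AtPrime p) ∧
      RingTheory.Sequence.IsRegular (LocalizedModule p.primeCompl N) rs

/-- the global dimension of the ring `A` is `d`. -/
def HasGlobalDim (A : Type) [Ring A] (d : WithBot ℕ∞) : Prop :=
  ∀ k : ℕ, (∀ N : ModuleCat.{0} A, HasProjectiveDimensionLE N k) ↔ d ≤ k

/-- `End_R(M)` is a NON-COMMUTATIVE CREPANT RESOLUTION of the normal Gorenstein domain `R`: `M` is a
non zero finitely generated reflexive module, `End_R(M)` is a maximal Cohen-Macaulay `R`-module and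
`gldim End_(R_p)(M_p) = dim R_p` for all primes `p`. -/
structure IsNCCR (R : Type) [CommRing R] (M : Type) [AddCommGroup M] [Module R M] : Prop where
  fin : Module.Finite R M
  refl : Module.IsReflexive R M
  nontriv : Nontrivial M
  mcm : IsMCM R (Module.End R M)
  gldim : ∀ (p : Ideal R) [p.IsPrime],
    HasGlobalDim (Module.End (Localization.AtPrime p) (LocalizedModule p.primeCompl M))
      (ringKrullDim (Localization.AtPrime p))

/-- `R` is Gorenstein: the local rings have finite injective dimension. -/
def IsGorenstein (R : Type) [CommRing R] : Prop :=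
  IsNoetherianRing R ∧ ∀ (p : Ideal R) [p.IsPrime], ∃ k : ℕ,
    HasInjectiveDimensionLE (ModuleCat.of (Localization.AtPrime p) (Localization.AtPrime p)) k

/-- A (left) module of finite length over the `R`-algebra `Λ`, annihilated by a power of the ideal
`m` of `R`. -/
structure FL {R : Type} [CommRing R] (m : Ideal R) (Λ : Type) [Ring Λ] [Algebra R Λ] where
  V : Type
  [grp : AddCommGroup V]
  [mod : Module Λ V]
  fl : IsFiniteLength Λ V
  supp : ∃ n : ℕ, ∀ r ∈ m ^ n, ∀ v : V, algebraMap R Λ r • v = 0

attribute [instance] FL.grp FL.mod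

/-- the relations `[B] = [A] + [C]`, for the exact sequences `0 → A → B → C → 0`. -/
def K0rel {R : Type} [CommRing R] (m : Ideal R) (Λ : Type) [Ring Λ] [Algebra R Λ] :
    AddSubgroup (FreeAbelianGroup (FL m Λ)) :=
  AddSubgroup.closure {x | ∃ (A B C : FL m Λ) (f : A.V →ₗ[Λ] B.V) (g : B.V →ₗ[Λ] C.V),
    Function.Injective f ∧ Function.Surjective g ∧ Function.Exact f g ∧
    x = FreeAbelianGroup.of B - FreeAbelianGroup.of A - FreeAbelianGroup.of C}

/-- the GROTHENDIECK GROUP of the `Λ`-modules of finite length supported at `m`. -/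
abbrev K0 {R : Type} [CommRing R] (m : Ideal R) (Λ : Type) [Ring Λ] [Algebra R Λ] : Type 1 :=
  FreeAbelianGroup (FL m Λ) ⧸ K0rel m Λ

end Pool.Agent.H85.NC
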