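import Pool.Agent.H85.NC.Defs

/-!
# The Grothendieck group of the modules of finite length is finitely generated
-/

namespace Pool.Agent.H85.NC

variable {R : Type} [CommRing R] {m : Ideal R} {Λ : Type} [Ring Λ] [Algebra R Λ]

/-- the class of a module. -/
def cls (A : FL m Λ) : K0 m Λ := QuotientAddGroup.mk (FreeAbelianGroup.of A)

theorem cls_exact (A B C : FL m Λ) (f : A.V →ₗ[Λ] B.V) (g : B.V →ₗ[Λ] C.V)
    (hf : Function.Injective f) (hg : Function.Surjective g) (he : Function.Exact f g) :
    cls B = cls A + cls C := by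
  have h : (FreeAbelianGroup.of B - FreeAbelianGroup.of A - FreeAbelianGroup.of C) ∈
      K0rel m Λ := AddSubgroup.subset_closure ⟨A, B, C, f, g, hf, hg, he, rfl⟩
  have h2 := (QuotientAddGroup.eq_zero_iff _).2 h
  have h3 : cls B - cls A - cls C = 0 := h2
  rw [sub_sub, sub_eq_zero] at h3
  exact h3

theorem cls_subsingleton (A : FL m Λ) [Subsingleton A.V] : cls A = 0 := by
  have h := cls_exact A A A 0 0 (fun x y _ => Subsingleton.elim x y)
    (fun y => ⟨y, Subsingleton.elim _ _⟩) (fun y => ⟨fun _ => ⟨y, Subsingleton.elim _ _⟩,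
      fun _ => Subsingleton.elim _ _⟩)
  exact left_eq_add.1 h

theorem cls_equiv (A B : FL m Λ) (e : A.V ≃ₗ[Λ] B.V) : cls A = cls B := by
  let Z : FL m Λ := ⟨PUnit, IsFiniteLength.of_subsingleton, 0, fun r _ v => Subsingleton.elim _ _⟩
  have h := cls_exact A B Z e.toLinearMap 0 e.injective
    (fun y => ⟨0, Subsingleton.elim _ _⟩) (fun y => ⟨fun _ => ⟨e.symm y, by simp⟩,
      fun _ => Subsingleton.elim _ _⟩)
  have : Subsingleton Z.V := inferInstanceAs (Subsingleton PUnit)
  rw [cls_subsingleton Z, add_zero] at h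
  exact h.symm

/-- The simple quotients of a module of finite length have only finitely many classes. -/
theorem finite_simple_quotients (Q : Type) [AddCommGroup Q] [Module Λ Q]
    (hQ : IsFiniteLength Λ Q) : ∃ T : Set (K0 m Λ), T.Finite ∧
      ∀ S : FL m Λ, IsSimpleModule Λ S.V → (∃ f : Q →ₗ[Λ] S.V, Function.Surjective f) →
        cls S ∈ T := by
  induction hQ with
  | @of_subsingleton Q _ _ _ =>
    refine ⟨∅, Set.finite_empty, fun S hS ⟨f, hf⟩ => ?_⟩
    have := hS
    have : Nontrivial S.V := IsSimpleModule.nontrivial Λ S.V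
    exact absurd hf.subsingleton (not_subsingleton S.V)
  | @of_simple_quotient Q _ _ N hN _ ih =>
    obtain ⟨T, hT, hTS⟩ := ih
    refine ⟨T ∪ {c | ∃ S₀ : FL m Λ, Nonempty (S₀.V ≃ₗ[Λ] (Q ⧸ N)) ∧ c = cls S₀},
      hT.union (Set.Subsingleton.finite ?_), ?_⟩
    · rintro _ ⟨S, ⟨e⟩, rfl⟩ _ ⟨S', ⟨e'⟩, rfl⟩
      exact cls_equiv S S' (e.trans e'.symm)
    · rintro S hS ⟨f, hf⟩
      have := hS
      by_cases h : f ∘ₗ N.subtype = 0
      · right
        have hker : N ≤ LinearMap.ker f := fun x hx => by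
          have := LinearMap.congr_fun h ⟨x, hx⟩
          exact this
        let g : (Q ⧸ N) →ₗ[Λ] S.V := N.liftQ f hker
        have hg : Function.Surjective g := by
          intro y
          obtain ⟨x, hx⟩ := hf y
          exact ⟨N.mkQ x, by simpa [g] using hx⟩
        have : Nontrivial S.V := IsSimpleModule.nontrivial Λ S.V
        have hinj : Function.Injective g := by
          rcases LinearMap.injective_or_eq_zero g with h1 | h1
          · exact h1
          · exfalso
            obtain ⟨y, hy⟩ := exists_ne (0 : S.V)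
            obtain ⟨x, hx⟩ := hg y
            rw [h1] at hx
            exact hy hx.symm
        exact ⟨S, ⟨(LinearEquiv.ofBijective g ⟨hinj, hg⟩).symm⟩, rfl⟩
      · left
        refine hTS S hS ⟨f ∘ₗ N.subtype, ?_⟩
        rcases LinearMap.surjective_or_eq_zero (f ∘ₗ N.subtype) with h1 | h1
        · exact h1
        · exact absurd h1 h

/-- In a simple module annihilated by a power of `m`, `m` acts as zero. -/
theorem supp_simple (S : FL m Λ) (hS : IsSimpleModule Λ S.V) :
    ∀ r ∈ m, ∀ v : S.V, algebraMap R Λ r • v = 0 := by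
  have := hS
  have : Nontrivial S.V := IsSimpleModule.nontrivial Λ S.V
  let I : Submodule Λ S.V :=
    { carrier := {v | ∀ r ∈ m, algebraMap R Λ r • v = 0}
      add_mem' := fun {a b} ha hb r hr => by rw [smul_add, ha r hr, hb r hr, add_zero]
      zero_mem' := fun r _ => smul_zero _
      smul_mem' := fun c v hv r hr => by
        rw [← mul_smul, Algebra.commutes, mul_smul, hv r hr, smul_zero] }
  rcases eq_bot_or_eq_top I with h | h
  · exfalso
    obtain ⟨n, hn⟩ := S.supp
    have key : ∀ (n : ℕ) (v : S.V), (∀ r ∈ m ^ n, algebraMap R Λ r • v = 0) → v = 0 := by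
      intro n
      induction n with
      | zero =>
        intro v hv
        have := hv 1 (by simp)
        simpa using this
      | succ n ih =>
        intro v hv
        have h1 : v ∈ I := fun r hr => ih _ fun r' hr' => by
          rw [← mul_smul, ← map_mul]
          exact hv _ (by rw [pow_succ]; exact Ideal.mul_mem_mul hr' hr)
        rw [h] at h1
        exact h1
    obtain ⟨y, hy⟩ := exists_ne (0 : S.V)
    exact hy (key n y fun r hr => hn r hr y)
  · intro r hr v
    have : v ∈ I := by rw [h]; trivial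
    exact this r hr

/-- the left ideal `m Λ`. -/
def mΛ (m : Ideal R) (Λ : Type) [Ring Λ] [Algebra R Λ] : Submodule Λ Λ :=
  Submodule.span Λ (algebraMap R Λ '' m)

/-- a simple module supported at `m` is a quotient of `Λ/mΛ`. -/
theorem simple_quotient (S : FL m Λ) (hS : IsSimpleModule Λ S.V) :
    ∃ f : (Λ ⧸ mΛ m Λ) →ₗ[Λ] S.V, Function.Surjective f := by
  have := hS
  have : Nontrivial S.V := IsSimpleModule.nontrivial Λ S.V
  obtain ⟨y, hy⟩ := exists_ne (0 : S.V)
  have hker : mΛ m Λ ≤ LinearMap.ker (LinearMap.toSpanSingleton Λ S.V y) := by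
    rw [mΛ, Submodule.span_le]
    rintro _ ⟨r, hr, rfl⟩
    simpa using supp_simple S hS r hr y
  refine ⟨(mΛ m Λ).liftQ _ hker, ?_⟩
  have h1 : Function.Surjective (LinearMap.toSpanSingleton Λ S.V y) := by
    rcases LinearMap.surjective_or_eq_zero (LinearMap.toSpanSingleton Λ S.V y) with h | h
    · exact h
    · exfalso
      have := LinearMap.congr_fun h 1
      simp at this
      exact hy this
  intro v
  obtain ⟨x, hx⟩ := h1 v
  exact ⟨(mΛ m Λ).mkQ x, by simpa using hx⟩

/-- `Λ/mΛ` is a module of finite length, if `Λ` is a finite `R`-module and `m` is maximal. -/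
theorem finite_length [Module.Finite R Λ] [m.IsMaximal] : IsFiniteLength Λ (Λ ⧸ mΛ m Λ) := by
  rw [isFiniteLength_iff_isNoetherian_isArtinian]
  have htor : Module.IsTorsionBySet R (Λ ⧸ mΛ m Λ) (m : Set R) := by
    rintro x ⟨r, hr⟩
    obtain ⟨x, rfl⟩ := Submodule.Quotient.mk_surjective _ x
    show r • Submodule.Quotient.mk x = 0
    rw [← Submodule.Quotient.mk_smul, Submodule.Quotient.mk_eq_zero, Algebra.smul_def,
      Algebra.commutes]
    exact Submodule.smul_mem _ x (Submodule.subset_span ⟨r, hr, rfl⟩)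
  let : Module (R ⧸ m) (Λ ⧸ mΛ m Λ) := htor.module
  have : IsScalarTower R (R ⧸ m) (Λ ⧸ mΛ m Λ) := htor.isScalarTower
  let : Field (R ⧸ m) := Ideal.Quotient.field m
  have : Module.Finite R (Λ ⧸ mΛ m Λ) :=
    Module.Finite.of_surjective ((mΛ m Λ).mkQ.restrictScalars R) (mΛ m Λ).mkQ_surjective
  have : Module.Finite (R ⧸ m) (Λ ⧸ mΛ m Λ) :=
    Module.Finite.of_restrictScalars_finite R (R ⧸ m) (Λ ⧸ mΛ m Λ)
  have hsurj : Function.Surjective (algebraMap R (R ⧸ m)) := Ideal.Quotient.mk_surjective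
  have : IsArtinian (R ⧸ m) (Λ ⧸ mΛ m Λ) := isArtinian_of_fg_of_artinian'
  have : IsNoetherian (R ⧸ m) (Λ ⧸ mΛ m Λ) := isNoetherian_of_isNoetherianRing_of_finite _ _
  have h1 : IsArtinian R (Λ ⧸ mΛ m Λ) := isArtinian_of_surjective_algebraMap hsurj
  have h2 : IsNoetherian R (Λ ⧸ mΛ m Λ) := by
    refine ⟨fun N => ?_⟩
    let N' : Submodule (R ⧸ m) (Λ ⧸ mΛ m Λ) :=
      { N with
        smul_mem' := fun c x hx => by
          obtain ⟨r, rfl⟩ := hsurj c
          have h3 : algebraMap R (R ⧸ m) r • x = r • x := algebraMap_smul _ r x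
          rw [h3]
          exact N.smul_mem r hx }
    have h4 : (N'.restrictScalars R).FG :=
      (IsNoetherian.noetherian N').restrictScalars_of_surjective hsurj
    exact h4
  exact ⟨isNoetherian_of_tower R h2, isArtinian_of_tower R h1⟩

/-- **Finite generation.** -/
theorem K0_fg [Module.Finite R Λ] [m.IsMaximal] : AddGroup.FG (K0 m Λ) := by
  obtain ⟨T, hT, hTS⟩ := finite_simple_quotients (m := m) (Λ ⧸ mΛ m Λ) (finite_length (m := m))
  have key : ∀ (V : Type) [AddCommGroup V] [Module Λ V] (hV : IsFiniteLength Λ V),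
      ∀ hs : ∃ n : ℕ, ∀ r ∈ m ^ n, ∀ v : V, algebraMap R Λ r • v = 0,
      cls (⟨V, hV, hs⟩ : FL m Λ) ∈ AddSubgroup.closure T := by
    intro V _ _ hV
    induction hV with
    | @of_subsingleton V _ _ _ =>
      intro hs
      have : Subsingleton (⟨V, IsFiniteLength.of_subsingleton, hs⟩ : FL m Λ).V :=
        inferInstanceAs (Subsingleton V)
      rw [cls_subsingleton]
      exact zero_mem _
    | @of_simple_quotient V _ _ N hN hf ih =>
      intro hs
      obtain ⟨n, hn⟩ := hs
      have hsN : ∃ n : ℕ, ∀ r ∈ m ^ n, ∀ v : N, algebraMap R Λ r • v = 0 :=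
        ⟨n, fun r hr v => Subtype.ext (hn r hr v)⟩
      have hsQ : ∃ n : ℕ, ∀ r ∈ m ^ n, ∀ v : V ⧸ N, algebraMap R Λ r • v = 0 :=
        ⟨n, fun r hr v => by
          obtain ⟨v, rfl⟩ := Submodule.Quotient.mk_surjective _ v
          rw [← Submodule.Quotient.mk_smul, hn r hr v]
          rfl⟩
      have hfQ : IsFiniteLength Λ (V ⧸ N) := by
        rw [isFiniteLength_iff_isNoetherian_isArtinian]
        exact ⟨inferInstance, inferInstance⟩
      rw [cls_exact ⟨N, hf, hsN⟩ _ ⟨V ⧸ N, hfQ, hsQ⟩ N.subtype N.mkQ N.injective_subtype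
        N.mkQ_surjective (LinearMap.exact_subtype_mkQ N)]
      refine add_mem (ih hsN) (AddSubgroup.subset_closure ?_)
      exact hTS ⟨V ⧸ N, hfQ, hsQ⟩ hN (simple_quotient _ hN)
  have htop : AddSubgroup.closure T = ⊤ := by
    rw [eq_top_iff]
    rintro x -
    obtain ⟨x, rfl⟩ := QuotientAddGroup.mk_surjective x
    induction x using FreeAbelianGroup.induction_on with
    | zero => exact zero_mem _
    | of A => exact key A.V A.fl A.supp
    | neg A h => exact neg_mem h
    | add a b ha hb => exact add_mem ha hb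
  exact ⟨(AddSubgroup.fg_iff _).2 ⟨T, htop, hT⟩⟩

end Pool.Agent.H85.NC
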