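import Pool.Agent.H85.NC.Defs

/-!
# Projective crepant resolutions of a threefold over a closed point
-/

namespace Pool.Agent.H85.NC

/-- THE PUBLISHED FACTS on the projective crepant resolutions of `Spec R` near the fibre over the
closed point `m`; `R` is a normal Gorenstein domain of dimension three, of finite type over the
complex numbers. -/
structure Crepant (R : Type) [CommRing R] (m : Ideal R) where
  /-- the projective crepant resolutions `pi : Y → Spec R`. -/
  Res : Type
  /-- the Grothendieck group of the coherent sheaves on `Y` supported on `pi^(-1)(m)`. -/
  K : Res → Type 1
  [grpK : ∀ Y, AddCommGroup (K Y)]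
  /-- VAN DEN BERGH (Non-commutative crepant resolutions, Theorem 6.3.1), together with IYAMA, WEMYSS
  (Maximal modifications and Auslander-Reiten duality for non-isolated singularities: in dimension
  three `End_R(M)` is derived equivalent to a resolution `End_R(R + N)`, for which the stability
  conditions of the moduli space are generic): if `Λ = End_R(M)` is a non-commutative crepant
  resolution, there is a projective crepant resolution `Y` with an `R`-linear equivalence
  `D^b(Coh Y) = D^b(mod Λ)`. It restricts to the complexes with cohomology supported over
  `m`, whose Grothendieck group is the one of the abelian category of the sheaves, or modules,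
  supported over `m`. -/
  nccr : ∀ (M : Type) [AddCommGroup M] [Module R M], IsNCCR R M →
    ∃ Y, Nonempty (K Y ≃+ K0 m (Module.End R M))
  /-- KOLLAR, KAWAMATA: two projective crepant resolutions of `Spec R` are connected by flops of
  smooth threefolds over `Spec R`; BRIDGELAND: these have equivalent derived categories, `R`-linearly,
  so the equivalence preserves the complexes supported over `m`. -/
  flop : ∀ Y Y', Nonempty (K Y ≃+ K Y')
  /-- the prime divisors `D` of `Y` with `pi(D) = m`. -/
  Div : Res → Type
  /-- the irregularity `h^1(O)` of a resolution `D'` of the surface `D`. -/
  irr : ∀ Y, Div Y → ℕ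
  /-- the coordinate ring of a smooth affine open part `V` of `D` which does not meet the other
  irreducible components of the fibre `pi^(-1)(m)`; the resolution `D' → D` is an isomorphism
  over `V`. -/
  B : ∀ Y, Div Y → Type
  [ringB : ∀ Y D, CommRing (B Y D)]
  [domB : ∀ Y D, IsDomain (B Y D)]
  /-- QUILLEN (devissage and localisation): the sheaves supported on the fibre have the
  Grothendieck group of the coherent sheaves on the reduced fibre, which is mapped onto the one of
  the open part `V`; the DETERMINANT maps the Grothendieck group of the smooth affine surface `V`
  onto `Pic V`. -/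
  det : ∀ Y D, ∃ f : K Y →+ Additive (ClassGroup (B Y D)), Function.Surjective f
  /-- `Pic D'`, and the restriction `Pic D' → Pic V`, whose kernel is generated by the classes of the
  finitely many curves in the complement of `V` in `D'`. -/
  Pic : ∀ Y, Div Y → Type
  [grpPic : ∀ Y D, AddCommGroup (Pic Y D)]
  restr : ∀ Y D, ∃ f : Pic Y D →+ Additive (ClassGroup (B Y D)), f.ker.FG
  /-- `Pic^0 D'` is the quotient of the vector space `H^1(D', O)` by the image of the finitely
  generated group `H^1(D', Z)`. -/
  pic0 : ∀ Y D, ∃ f : (Fin (irr Y D) → ℂ) →+ Pic Y D, f.ker.FG

attribute [instance] Crepant.grpK Crepant.ringB Crepant.domB Crepant.grpPic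

/-- THE STATEMENT: let `R` be a normal Gorenstein domain of dimension three, of finite type over the
complex numbers, and `m` a closed point of `Spec R`. If some projective crepant resolution of
`Spec R` contains a prime divisor `D` contracted to `m` whose resolution has positive irregularity,
then `R` has no non-commutative crepant resolution. -/
def Statement : Prop :=
  ∀ (R : Type) [CommRing R] [IsDomain R] [Algebra ℂ R] [Algebra.FiniteType ℂ R],
    IsIntegrallyClosed R → IsGorenstein R → ringKrullDim R = 3 →
    ∀ (m : Ideal R) [m.IsMaximal] (S : Crepant R m),
      (∃ (Y : S.Res) (D : S.Div Y), 0 < S.irr Y D) →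
      ∀ (M : Type) [AddCommGroup M] [Module R M], ¬ IsNCCR R M

end Pool.Agent.H85.NC
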